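import Pool.Agent.MDG.Stmts
import Pool.Agent.Helper5_HEC.CNT

set_option autoImplicit false

namespace Pool.Agent.MDG.H77

open Finset Pool.Agent.HEC

theorem cn5 : Cn5Stmt := by
  intro V _ G N
  have h1 := HEC.H5.e2_split G N.t1
  have h2 := HEC.H5.e2_split (sam G N.t1) N.t2
  have h3 := HEC.H5.e2_split (sam (sam G N.t1) N.t2) N.t3
  have h4 := HEC.H5.e2_split (sam (sam (sam G N.t1) N.t2) N.t3) N.t4
  have h4' := HEC.H5.e2_split (sam (sam (sam (sam G N.t1) N.t2) N.t3) N.t4) N.t5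
  have h5 : e2 (sam G N.t1) ≤ e2 (dif G N.t1) := by
    rw [HEC.H5.e2_cut, HEC.H5.e2_cut]
    exact Finset.sum_le_sum fun v _ => N.c1 {v}
  have k1 : e2 N.H = e2 (dif G N.t1) := rfl
  have k2 : e2 N.E2 = e2 (dif (sam G N.t1) N.t2) := rfl
  have k3 : e2 N.E3 = e2 (dif (sam (sam G N.t1) N.t2) N.t3) := rfl
  have k4 : e2 N.E4 = e2 (dif (sam (sam (sam G N.t1) N.t2) N.t3) N.t4) := rfl
  have k5 : e2 N.E5 = e2 (dif (sam (sam (sam (sam G N.t1) N.t2) N.t3) N.t4) N.t5) := rfl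
  have k6 : e2 N.S = e2 (sam (sam (sam (sam (sam G N.t1) N.t2) N.t3) N.t4) N.t5) := rfl
  omega

end Pool.Agent.MDG.H77
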